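import Pool.Agent.J4H15.AP.Perm

/-!
# Residue classes which contain no value of boundedly many polynomials of degree `d`
-/

set_option autoImplicit false

namespace Pool.Agent.J4H15.AP

open Polynomial Finset

open Classical in
/-- the residues modulo `Q` of the integers with the property `Bad` -/
noncomputable def badres (Bad : ℤ → Prop) (Q : ℕ) : Finset ℕ :=
  (range Q).filter (fun r => ∃ t : ℤ, (Q : ℤ) ∣ t - r ∧ Bad t)

/-- all integers with the property `Bad` are values of at most `N` polynomials of degree `d` or `0` -/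
def Cov (d N : ℕ) (Bad : ℤ → Prop) : Prop :=
  ∃ S : Finset ℤ[X], S.card ≤ N ∧ (∀ U ∈ S, U.natDegree = d ∨ U.natDegree = 0) ∧
    ∀ t : ℤ, Bad t → ∃ U ∈ S, ∃ k : ℤ, U.eval k = t

theorem count (d N : ℕ) (hd : 2 ≤ d) (Bad : ℤ → Prop) (h : Cov d N Bad) :
    ∃ B : ℕ, 0 < B ∧ ∀ T : Finset ℕ, (∀ p ∈ T, p.Prime ∧ p % d = 1 ∧ ¬ p ∣ B) →
      ((badres Bad (∏ p ∈ T, p)).card : ℝ) ≤
        N * ((1 - 1 / (2 * d)) ^ T.card * ((∏ p ∈ T, p : ℕ) : ℝ) + 1) := by
  classical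
  obtain ⟨S, hS, hdeg, hbad⟩ := h
  refine ⟨∏ U ∈ S.filter (fun U => U.natDegree = d), U.leadingCoeff.natAbs, ?_, ?_⟩
  · apply prod_pos
    intro U hU
    rw [mem_filter] at hU
    rw [Int.natAbs_pos, Ne, leadingCoeff_eq_zero]
    rintro rfl
    rw [natDegree_zero] at hU
    omega
  intro T hT
  set Q := ∏ p ∈ T, p with hQ
  have hdr : (2 : ℝ) ≤ d := by exact_mod_cast hd
  have hq : (0 : ℝ) ≤ 1 - 1 / (2 * d) := by
    have : 1 / (2 * (d : ℝ)) ≤ 1 := by
      rw [div_le_one (by linarith)]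
      linarith
    linarith
  set A : ℤ[X] → Finset ℕ := fun U => (range Q).filter (fun r => ∃ k : ℤ, (Q : ℤ) ∣ U.eval k - r)
    with hA
  have hsub : badres Bad Q ⊆ S.biUnion A := by
    intro r hr
    rw [badres, mem_filter] at hr
    obtain ⟨hr1, t, ht, hb⟩ := hr
    obtain ⟨U, hU, k, hk⟩ := hbad t hb
    rw [mem_biUnion]
    refine ⟨U, hU, ?_⟩
    rw [hA, mem_filter]
    exact ⟨hr1, k, by rwa [hk]⟩
  have hQ0 : (0 : ℝ) ≤ (Q : ℝ) := Nat.cast_nonneg _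
  have hone : ∀ U ∈ S, ((A U).card : ℝ) ≤ (1 - 1 / (2 * d)) ^ T.card * (Q : ℝ) + 1 := by
    intro U hU
    rcases hdeg U hU with h1 | h1
    · have hc : (A U).card ≤ ∏ p ∈ T, (resid U p).card := by
        apply card_crt T (fun p hp => (hT p hp).1) (resid U) (A U)
        · intro r hr
          rw [hA, mem_filter, mem_range] at hr
          exact hr.1
        · intro r hr p hp
          rw [hA, mem_filter] at hr
          obtain ⟨_, k, hk⟩ := hr
          rw [resid, mem_filter, mem_range]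
          refine ⟨Nat.mod_lt _ (hT p hp).1.pos, k, ?_⟩
          have h2 : (p : ℤ) ∣ (Q : ℤ) := by
            exact_mod_cast dvd_prod_of_mem (fun p => p) hp
          have h3 : (p : ℤ) ∣ (r : ℤ) - ((r % p : ℕ) : ℤ) := by
            push_cast
            exact Int.dvd_self_sub_emod
          have h4 := dvd_add (h2.trans hk) h3
          have h5 : U.eval k - (r : ℤ) + ((r : ℤ) - ((r % p : ℕ) : ℤ)) =
              U.eval k - ((r % p : ℕ) : ℤ) := by ring
          rwa [h5] at h4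
      have hc' : ((A U).card : ℝ) ≤ ∏ p ∈ T, ((p : ℝ) * (1 - 1 / (2 * d))) := by
        calc ((A U).card : ℝ) ≤ ((∏ p ∈ T, (resid U p).card : ℕ) : ℝ) := by exact_mod_cast hc
          _ = ∏ p ∈ T, ((resid U p).card : ℝ) := by push_cast; rfl
          _ ≤ ∏ p ∈ T, ((p : ℝ) * (1 - 1 / (2 * d))) := by
            apply prod_le_prod
            · intro p _
              positivity
            · intro p hp
              obtain ⟨hp1, hp2, hp3⟩ := hT p hp
              apply card_resid d hd U h1 p hp1 hp2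
              intro hdvd
              apply hp3
              have h6 : p ∣ U.leadingCoeff.natAbs := by
                rw [← Int.natCast_dvd]
                exact hdvd
              exact h6.trans (dvd_prod_of_mem (fun U : ℤ[X] => U.leadingCoeff.natAbs)
                (mem_filter.mpr ⟨hU, h1⟩))
      have h7 : ∏ p ∈ T, ((p : ℝ) * (1 - 1 / (2 * d))) =
          (1 - 1 / (2 * (d : ℝ))) ^ T.card * (Q : ℝ) := by
        rw [prod_mul_distrib, prod_const, hQ]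
        push_cast
        ring
      rw [h7] at hc'
      linarith
    · have hc : (A U).card ≤ 1 := by
        rw [card_le_one]
        intro r hr r' hr'
        rw [hA, mem_filter, mem_range] at hr hr'
        obtain ⟨hr1, k, hk⟩ := hr
        obtain ⟨hr1', k', hk'⟩ := hr'
        rw [eq_C_of_natDegree_eq_zero h1, eval_C] at hk hk'
        have h2 : r ≡ r' [MOD Q] := by
          rw [Nat.modEq_iff_dvd]
          have := dvd_sub hk hk'
          have h3 : U.coeff 0 - (r : ℤ) - (U.coeff 0 - (r' : ℤ)) = (r' : ℤ) - r := by ring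
          rwa [h3] at this
        exact h2.eq_of_lt_of_lt hr1 hr1'
      have hc' : ((A U).card : ℝ) ≤ 1 := by exact_mod_cast hc
      have : 0 ≤ (1 - 1 / (2 * (d : ℝ))) ^ T.card * (Q : ℝ) := mul_nonneg (pow_nonneg hq _) hQ0
      linarith
  calc ((badres Bad Q).card : ℝ) ≤ ((S.biUnion A).card : ℝ) := by exact_mod_cast card_le_card hsub
    _ ≤ ((∑ U ∈ S, (A U).card : ℕ) : ℝ) := by exact_mod_cast card_biUnion_le
    _ = ∑ U ∈ S, ((A U).card : ℝ) := by push_cast; rfl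
    _ ≤ ∑ U ∈ S, ((1 - 1 / (2 * d)) ^ T.card * (Q : ℝ) + 1) := sum_le_sum hone
    _ = S.card * ((1 - 1 / (2 * d)) ^ T.card * (Q : ℝ) + 1) := by
        rw [sum_const, nsmul_eq_mul]
    _ ≤ N * ((1 - 1 / (2 * d)) ^ T.card * (Q : ℝ) + 1) := by
        apply mul_le_mul_of_nonneg_right
        · exact_mod_cast hS
        · have : 0 ≤ (1 - 1 / (2 * (d : ℝ))) ^ T.card * (Q : ℝ) := mul_nonneg (pow_nonneg hq _) hQ0
          linarith

/-- almost all residue classes are free, for a modulus prime to a given one -/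
theorem almost_all (d N : ℕ) (hd : 2 ≤ d) (Bad : ℤ → Prop) (h : Cov d N Bad) (b : ℕ) (hb : 0 < b)
    (ε : ℝ) (hε : 0 < ε) :
    ∃ Q : ℕ, 0 < Q ∧ Nat.Coprime Q b ∧ ((badres Bad Q).card : ℝ) ≤ ε * Q := by
  classical
  obtain ⟨B, hB, hcount⟩ := count d N hd Bad h
  have hdr : (2 : ℝ) ≤ d := by exact_mod_cast hd
  have hq : (0 : ℝ) ≤ 1 - 1 / (2 * d) := by
    have : 1 / (2 * (d : ℝ)) ≤ 1 := by
      rw [div_le_one (by linarith)]
      linarith
    linarith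
  have hq1 : 1 - 1 / (2 * (d : ℝ)) < 1 := by
    have : 0 < 1 / (2 * (d : ℝ)) := by positivity
    linarith
  obtain ⟨n, hn⟩ := exists_pow_lt_of_lt_one (show 0 < ε / (2 * (N + 1)) by positivity) hq1
  set M : ℕ := ⌈2 * (N : ℝ) / ε⌉₊ with hM
  have hinf : {p : ℕ | p.Prime ∧ p ≡ 1 [MOD d] ∧ B + b + M < p}.Infinite := by
    have h1 := Nat.infinite_setOfPred_prime_modEq_one (k := d) (by omega)
    have h2 : {p : ℕ | p.Prime ∧ p ≡ 1 [MOD d] ∧ B + b + M < p} =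
        {p : ℕ | p.Prime ∧ p ≡ 1 [MOD d]} \ Set.Iic (B + b + M) := by
      ext p
      simp only [Set.mem_ofPred_eq, Set.mem_sdiff, Set.mem_Iic, not_le]
      tauto
    rw [h2]
    exact h1.sdiff (Set.finite_Iic _)
  obtain ⟨T, hTs, hTc⟩ := hinf.exists_subset_card_eq (n + 1)
  have hT : ∀ p ∈ T, p.Prime ∧ p ≡ 1 [MOD d] ∧ B + b + M < p := fun p hp => hTs hp
  have hcop : Nat.Coprime (∏ p ∈ T, p) b := by
    apply Nat.Coprime.prod_left
    intro p hp
    rw [(hT p hp).1.coprime_iff_not_dvd]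
    intro hdvd
    have := Nat.le_of_dvd hb hdvd
    have := (hT p hp).2.2
    omega
  have hpos : 0 < ∏ p ∈ T, p := prod_pos fun p hp => (hT p hp).1.pos
  refine ⟨∏ p ∈ T, p, hpos, hcop, ?_⟩
  have hc := hcount T (fun p hp => ⟨(hT p hp).1, by
    have h1 := (hT p hp).2.1
    have h2 : 1 % d = 1 := Nat.mod_eq_of_lt (by omega)
    rw [Nat.ModEq, h2] at h1
    exact h1, fun hdvd => by
    have := Nat.le_of_dvd hB hdvd
    have := (hT p hp).2.2
    omega⟩)
  have hne : T.Nonempty := by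
    rw [← card_pos]
    omega
  obtain ⟨p₀, hp₀⟩ := hne
  have hQM : M ≤ ∏ p ∈ T, p := by
    have h1 : p₀ ∣ ∏ p ∈ T, p := dvd_prod_of_mem _ hp₀
    have h2 := Nat.le_of_dvd hpos h1
    have h3 := (hT p₀ hp₀).2.2
    omega
  set Q := ∏ p ∈ T, p with hQ
  have hQM' : 2 * (N : ℝ) / ε ≤ Q := by
    have h0 : 2 * (N : ℝ) / ε ≤ (M : ℝ) := Nat.le_ceil _
    exact h0.trans (Nat.cast_le.mpr hQM)
  have h1 : (N : ℝ) ≤ ε / 2 * Q := by
    rw [div_le_iff₀ hε] at hQM'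
    linarith
  have hQ0 : (0 : ℝ) ≤ (Q : ℝ) := Nat.cast_nonneg _
  have h2 : (1 - 1 / (2 * (d : ℝ))) ^ T.card ≤ ε / (2 * (N + 1)) := by
    rw [hTc, pow_succ]
    have h3 : (1 - 1 / (2 * (d : ℝ))) ^ n * (1 - 1 / (2 * (d : ℝ))) ≤
        (1 - 1 / (2 * (d : ℝ))) ^ n * 1 := mul_le_mul_of_nonneg_left hq1.le (pow_nonneg hq _)
    linarith
  have h3 : (N : ℝ) * (1 - 1 / (2 * (d : ℝ))) ^ T.card ≤ ε / 2 := by
    calc (N : ℝ) * (1 - 1 / (2 * (d : ℝ))) ^ T.card ≤ (N + 1) * (ε / (2 * (N + 1))) := by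
          apply mul_le_mul (by linarith) h2 (pow_nonneg hq _) (by positivity)
      _ = ε / 2 := by
          field_simp
  calc ((badres Bad Q).card : ℝ) ≤ N * ((1 - 1 / (2 * d)) ^ T.card * (Q : ℝ) + 1) := hc
    _ = (N : ℝ) * (1 - 1 / (2 * (d : ℝ))) ^ T.card * Q + N := by ring
    _ ≤ ε / 2 * Q + ε / 2 * Q := add_le_add (mul_le_mul_of_nonneg_right h3 hQ0) h1
    _ = ε * Q := by ring

/-- one residue class -/
theorem one_class (d N : ℕ) (hd : 2 ≤ d) (Bad : ℤ → Prop) (h : Cov d N Bad) (b : ℕ) (hb : 0 < b) :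
    ∃ Q : ℕ, 0 < Q ∧ Nat.Coprime Q b ∧ ∃ r : ℕ, ∀ t : ℤ, (Q : ℤ) ∣ t - r → ¬ Bad t := by
  classical
  obtain ⟨Q, hQ, hc, hq⟩ := almost_all d N hd Bad h b hb (1 / 2) (by norm_num)
  refine ⟨Q, hQ, hc, ?_⟩
  have hQ' : (0 : ℝ) < Q := by exact_mod_cast hQ
  have h1 : (badres Bad Q).card < (range Q).card := by
    rw [card_range]
    have : ((badres Bad Q).card : ℝ) < Q := by linarith
    exact_mod_cast this
  obtain ⟨r, hr, hr'⟩ := exists_mem_notMem_of_card_lt_card h1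
  refine ⟨r, fun t ht hb => hr' ?_⟩
  rw [badres, mem_filter]
  exact ⟨hr, t, ht, hb⟩

/-- nested residue classes for countably many properties -/
theorem nested {ι : Type} [Countable ι] (Bad : ι → ℤ → Prop)
    (h : ∀ i, ∀ b : ℕ, 0 < b → ∃ Q : ℕ, 0 < Q ∧ Nat.Coprime Q b ∧ ∃ r : ℕ, ∀ t : ℤ,
      (Q : ℤ) ∣ t - r → ¬ Bad i t) (a b : ℕ) (hb : 0 < b) :
    ∃ Q r : ℕ → ℕ, Q 0 = b ∧ r 0 = a ∧ (∀ n, 0 < Q n ∧ Q n ∣ Q (n + 1) ∧
      r (n + 1) ≡ r n [MOD Q n]) ∧ ∀ i, ∃ n, ∀ t : ℤ, (Q n : ℤ) ∣ t - r n → ¬ Bad i t := by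
  classical
  have step : ∀ (i : ι) (s : {s : ℕ × ℕ // 0 < s.1}), ∃ s' : {s : ℕ × ℕ // 0 < s.1},
      s.1.1 ∣ s'.1.1 ∧ s'.1.2 ≡ s.1.2 [MOD s.1.1] ∧
      ∀ t : ℤ, (s'.1.1 : ℤ) ∣ t - s'.1.2 → ¬ Bad i t := by
    rintro i ⟨⟨Q, r⟩, hQ⟩
    obtain ⟨Q', hQ', hc, r', hr'⟩ := h i Q hQ
    obtain ⟨x, hx1, hx2⟩ := Nat.chineseRemainder hc.symm r r'
    refine ⟨⟨⟨Q * Q', x⟩, Nat.mul_pos hQ hQ'⟩, Dvd.intro _ rfl, hx1, ?_⟩
    intro t ht
    apply hr' t
    have h1 : (Q' : ℤ) ∣ t - x := by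
      refine dvd_trans ?_ ht
      push_cast
      exact Dvd.intro_left _ rfl
    have h2 : (Q' : ℤ) ∣ (x : ℤ) - r' := Nat.modEq_iff_dvd.mp hx2.symm
    have h3 := dvd_add h1 h2
    rwa [sub_add_sub_cancel] at h3
  rcases isEmpty_or_nonempty ι with he | he
  · refine ⟨fun _ => b, fun _ => a, rfl, rfl, fun n => ⟨hb, dvd_rfl, Nat.ModEq.refl _⟩, ?_⟩
    intro i
    exact (he.false i).elim
  · obtain ⟨f, hf⟩ := exists_surjective_nat ι
    choose g hg1 hg2 hg3 using step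
    set s : ℕ → {s : ℕ × ℕ // 0 < s.1} := fun n => Nat.rec ⟨(b, a), hb⟩ (fun n s => g (f n) s) n
      with hs
    have hs1 : ∀ n, s (n + 1) = g (f n) (s n) := fun n => rfl
    refine ⟨fun n => (s n).1.1, fun n => (s n).1.2, rfl, rfl, fun n => ⟨(s n).2, ?_, ?_⟩, ?_⟩
    · simp only [hs1]
      exact hg1 _ _
    · simp only [hs1]
      exact hg2 _ _
    · intro i
      obtain ⟨n, rfl⟩ := hf i
      refine ⟨n + 1, ?_⟩
      simp only [hs1]
      exact hg3 _ _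

end Pool.Agent.J4H15.AP
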