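import Mathlib

/-!
# Values of polynomials modulo primes `p` with `d ∣ p - 1`, and modulo products of such primes
-/

set_option autoImplicit false

namespace Pool.Agent.J4H15.AP

open Polynomial Finset

/-- if the power sums of `c` vanish up to `K - 1` and not at `K`, more than `K` numbers `c y` are not zero -/
theorem support_gt {p : ℕ} [Fact p.Prime] (c : ZMod p → ZMod p) (K : ℕ)
    (h0 : ∀ k < K, ∑ y, c y * y ^ k = 0) (hK : ∑ y, c y * y ^ K ≠ 0) :
    K < (univ.filter (fun y => c y ≠ 0)).card := by
  classical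
  by_contra hcon
  push Not at hcon
  set S : Finset (ZMod p) := univ.filter (fun y => c y ≠ 0) with hS
  set P : (ZMod p)[X] := (∏ s ∈ S, (X - C s)) * X ^ (K - S.card) with hP
  have hm : P.Monic := (monic_prod_of_monic _ _ fun s _ => monic_X_sub_C s).mul (monic_X_pow _)
  have hdeg : P.natDegree = K := by
    rw [hP, Monic.natDegree_mul (monic_prod_of_monic _ _ fun s _ => monic_X_sub_C s)
      (monic_X_pow _), natDegree_prod_of_monic _ _ fun s _ => monic_X_sub_C s]
    simp only [natDegree_X_sub_C, sum_const, smul_eq_mul, mul_one, natDegree_X_pow]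
    omega
  have h1 : ∑ y, c y * P.eval y = 0 := by
    apply sum_eq_zero
    intro y _
    by_cases hy : c y = 0
    · rw [hy, zero_mul]
    · have : P.eval y = 0 := by
        rw [hP, eval_mul, eval_prod]
        rw [prod_eq_zero (i := y)]
        · rw [zero_mul]
        · rw [hS, mem_filter]
          exact ⟨mem_univ _, hy⟩
        · simp
      rw [this, mul_zero]
  have h2 : ∑ y, c y * P.eval y = ∑ k ∈ range (K + 1), P.coeff k * ∑ y, c y * y ^ k := by
    have : ∀ y, c y * P.eval y = ∑ k ∈ range (K + 1), P.coeff k * (c y * y ^ k) := by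
      intro y
      rw [eval_eq_sum_range, hdeg, mul_sum]
      exact sum_congr rfl fun k _ => by ring
    simp_rw [this, mul_sum]
    exact sum_comm
  rw [h2, sum_range_succ, sum_eq_zero, zero_add] at h1
  · have h3 : P.coeff K = 1 := by
      rw [← hdeg]
      exact hm
    rw [h3, one_mul] at h1
    exact hK h1
  · intro k hk
    rw [h0 k (mem_range.mp hk), mul_zero]

theorem sum_eval {p : ℕ} [Fact p.Prime] (V : (ZMod p)[X]) (hV : V.natDegree ≤ p - 1) :
    ∑ x, V.eval x = -V.coeff (p - 1) := by
  have hp : 1 < p := (Fact.out : p.Prime).one_lt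
  have h1 : ∀ x, V.eval x = ∑ k ∈ range (p - 1 + 1), V.coeff k * x ^ k := by
    intro x
    exact eval_eq_sum_range' (by omega) x
  simp_rw [h1]
  rw [sum_comm]
  simp_rw [← mul_sum]
  rw [sum_range_succ, sum_eq_zero, zero_add]
  · have h2 : ∑ x : ZMod p, x ^ (p - 1) = -1 := by
      have h3 : ∀ x : ZMod p, x ^ (p - 1) = if x = 0 then 0 else 1 := by
        intro x
        split_ifs with hx
        · rw [hx, zero_pow (by omega)]
        · exact ZMod.pow_card_sub_one_eq_one hx
      simp_rw [h3]
      have h4 : ∑ x : ZMod p, (if x = 0 then (0 : ZMod p) else 1) =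
          ∑ x : ZMod p, (1 - if x = 0 then (1 : ZMod p) else 0) := by
        apply sum_congr rfl
        intro x _
        split_ifs <;> ring
      rw [h4, sum_sub_distrib, sum_ite_eq' univ (0 : ZMod p)]
      simp
    rw [h2]
    ring
  · intro k hk
    rw [FiniteField.sum_pow_lt_card_sub_one (K := ZMod p) k, mul_zero]
    rw [ZMod.card]
    exact mem_range.mp hk

/-- a polynomial of degree `d` misses many values modulo `p` if `p = 1` modulo `d` -/
theorem image_le {p : ℕ} [Fact p.Prime] (d : ℕ) (hd : 2 ≤ d) (hpd : p % d = 1) (U : (ZMod p)[X])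
    (hU : U.natDegree = d) :
    ((univ.image (fun x => U.eval x)).card : ℝ) ≤ p * (1 - 1 / (2 * d)) := by
  classical
  have hp : 1 < p := (Fact.out : p.Prime).one_lt
  have hU0 : U ≠ 0 := by
    rintro rfl
    rw [natDegree_zero] at hU
    omega
  set K := p / d with hKdef
  have hpK : p = d * K + 1 := by
    have h := Nat.div_add_mod p d
    rw [hpd, ← hKdef] at h
    exact h.symm
  have hK1 : 1 ≤ K := by
    rcases Nat.eq_zero_or_pos K with h | h
    · rw [h] at hpK
      omega
    · exact h
  set c : ZMod p → ZMod p := fun y => ((univ.filter (fun x => U.eval x = y)).card : ZMod p) - 1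
    with hc
  have hsum : ∀ k, ∑ y, c y * y ^ k = ∑ x, (U.eval x) ^ k - ∑ y : ZMod p, y ^ k := by
    intro k
    have h1 : ∑ x, (U.eval x) ^ k = ∑ y, ((univ.filter (fun x => U.eval x = y)).card : ZMod p) *
        y ^ k := by
      rw [← Finset.sum_fiberwise (s := univ) (g := fun x => U.eval x)]
      apply sum_congr rfl
      intro y _
      rw [← nsmul_eq_mul, ← Finset.sum_const]
      apply sum_congr rfl
      intro x hx
      rw [(mem_filter.mp hx).2]
    rw [h1, ← sum_sub_distrib]
    apply sum_congr rfl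
    intro y _
    rw [hc]
    ring
  have hKp : K < p - 1 := by
    have : 2 * K ≤ d * K := Nat.mul_le_mul_right K hd
    omega
  have hy : ∀ k ≤ K, ∑ y : ZMod p, y ^ k = 0 := by
    intro k hk
    apply FiniteField.sum_pow_lt_card_sub_one
    rw [ZMod.card]
    omega
  have hdk : ∀ k, (U ^ k).natDegree = k * d := by
    intro k
    rw [natDegree_pow, hU]
  have hpow : ∀ k ≤ K, ∑ x, (U.eval x) ^ k = -(U ^ k).coeff (p - 1) := by
    intro k hk
    rw [← sum_eval (U ^ k)]
    · exact sum_congr rfl fun x _ => by rw [eval_pow]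
    · rw [hdk]
      have : k * d ≤ K * d := Nat.mul_le_mul_right d hk
      rw [mul_comm K d] at this
      omega
  have hlt : ∀ k < K, ∑ y, c y * y ^ k = 0 := by
    intro k hk
    rw [hsum, hy k hk.le, hpow k hk.le, coeff_eq_zero_of_natDegree_lt, neg_zero, sub_zero]
    rw [hdk]
    have : (k + 1) * d ≤ K * d := Nat.mul_le_mul_right d hk
    rw [mul_comm K d] at this
    have h2 : (k + 1) * d = k * d + d := by ring
    omega
  have hne : ∑ y, c y * y ^ K ≠ 0 := by
    rw [hsum, hy K le_rfl, hpow K le_rfl, sub_zero, neg_ne_zero]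
    have h3 : p - 1 = (U ^ K).natDegree := by
      rw [hdk, mul_comm K d]
      omega
    rw [h3, coeff_natDegree]
    exact leadingCoeff_ne_zero.mpr (pow_ne_zero _ hU0)
  have hsup := support_gt c K hlt hne
  set V := univ.image (fun x => U.eval x) with hV
  set W := univ.filter (fun y : ZMod p => 2 ≤ (univ.filter (fun x => U.eval x = y)).card) with hW
  have hsub : univ.filter (fun y => c y ≠ 0) ⊆ Vᶜ ∪ W := by
    intro y hyc
    rw [mem_filter] at hyc
    rw [mem_union, mem_compl, hW, mem_filter]
    by_contra hcon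
    push Not at hcon
    obtain ⟨h1, h2⟩ := hcon
    have h3 : 0 < (univ.filter (fun x => U.eval x = y)).card := by
      rw [card_pos]
      rw [hV, mem_image] at h1
      obtain ⟨x, _, hx⟩ := h1
      exact ⟨x, mem_filter.mpr ⟨mem_univ _, hx⟩⟩
    have h4 := h2 (mem_univ _)
    have h5 : (univ.filter (fun x => U.eval x = y)).card = 1 := by omega
    apply hyc.2
    rw [hc]
    simp only [h5]
    simp
  have hcount : V.card + W.card ≤ p := by
    have h1 : ∑ y : ZMod p, (univ.filter (fun x => U.eval x = y)).card = p := by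
      rw [← card_eq_sum_card_fiberwise (f := fun x => U.eval x) (s := univ) (t := univ)
        (fun x _ => mem_coe.mpr (mem_univ _))]
      rw [card_univ, ZMod.card]
    have h2 : V.card + W.card = ∑ y : ZMod p, ((if y ∈ V then 1 else 0) + if y ∈ W then 1 else 0) := by
      rw [sum_add_distrib]
      simp
    rw [h2]
    conv_rhs => rw [← h1]
    apply sum_le_sum
    intro y _
    by_cases hyV : y ∈ V
    · have h3 : 0 < (univ.filter (fun x => U.eval x = y)).card := by
        rw [card_pos]
        rw [hV, mem_image] at hyV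
        obtain ⟨x, _, hx⟩ := hyV
        exact ⟨x, mem_filter.mpr ⟨mem_univ _, hx⟩⟩
      by_cases hyW : y ∈ W
      · rw [if_pos hyV, if_pos hyW]
        rw [hW, mem_filter] at hyW
        exact hyW.2
      · rw [if_pos hyV, if_neg hyW]
        omega
    · have hyW : y ∉ W := by
        intro h
        rw [hW, mem_filter] at h
        apply hyV
        have h3 : 0 < (univ.filter (fun x => U.eval x = y)).card := by omega
        rw [card_pos] at h3
        obtain ⟨x, hx⟩ := h3
        rw [hV, mem_image]
        exact ⟨x, mem_univ _, (mem_filter.mp hx).2⟩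
      rw [if_neg hyV, if_neg hyW]
      omega
  have hVp : V.card ≤ p := by omega
  have hcompl : (Vᶜ).card = p - V.card := by
    rw [card_compl, ZMod.card]
  have hfin : K + 1 ≤ (p - V.card) + (p - V.card) := by
    have h1 := (card_le_card hsub).trans (card_union_le _ _)
    rw [hcompl] at h1
    omega
  have hfin' : (K : ℝ) + 1 ≤ 2 * (p - V.card) := by
    have h1 : K + 1 + 2 * V.card ≤ 2 * p := by omega
    have h2 : (K : ℝ) + 1 + 2 * V.card ≤ 2 * p := by exact_mod_cast h1
    linarith
  have hdr : (2 : ℝ) ≤ d := by exact_mod_cast hd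
  have hpr : (p : ℝ) = d * K + 1 := by exact_mod_cast hpK
  have h1 : (p : ℝ) / d ≤ K + 1 := by
    rw [div_le_iff₀ (by linarith), hpr]
    nlinarith [(Nat.cast_nonneg K : (0 : ℝ) ≤ K)]
  have h2 : (p : ℝ) * (1 - 1 / (2 * d)) = p - p / d / 2 := by
    field_simp
  rw [h2]
  linarith

/-- the residues modulo `p` in `[0, p)` of the values of an integer polynomial -/
noncomputable def resid (U : ℤ[X]) (p : ℕ) : Finset ℕ := by
  classical
  exact (range p).filter (fun r => ∃ k : ℤ, (p : ℤ) ∣ U.eval k - r)

theorem card_resid (d : ℕ) (hd : 2 ≤ d) (U : ℤ[X]) (hU : U.natDegree = d) (p : ℕ) (hp : p.Prime)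
    (hpd : p % d = 1) (hpl : ¬ (p : ℤ) ∣ U.leadingCoeff) :
    ((resid U p).card : ℝ) ≤ p * (1 - 1 / (2 * d)) := by
  classical
  have : Fact p.Prime := ⟨hp⟩
  set U' : (ZMod p)[X] := U.map (Int.castRingHom (ZMod p)) with hU'
  have hdeg : U'.natDegree = d := by
    rw [hU', natDegree_map_of_leadingCoeff_ne_zero, hU]
    rw [eq_intCast, Ne, ZMod.intCast_zmod_eq_zero_iff_dvd]
    exact hpl
  refine le_trans ?_ (image_le d hd hpd U' hdeg)
  norm_cast
  apply card_le_card_of_injOn (fun r : ℕ => (r : ZMod p))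
  · intro r hr
    rw [mem_coe, resid, mem_filter] at hr
    obtain ⟨_, k, hk⟩ := hr
    rw [mem_coe, mem_image]
    refine ⟨(k : ZMod p), mem_univ _, ?_⟩
    rw [hU', eval_intCast_map]
    rw [← ZMod.intCast_zmod_eq_zero_iff_dvd] at hk
    push_cast at hk
    exact sub_eq_zero.mp hk
  · intro r hr r' hr' h
    rw [mem_coe, resid, mem_filter, mem_range] at hr hr'
    simp only at h
    rw [ZMod.natCast_eq_natCast_iff'] at h
    rwa [Nat.mod_eq_of_lt hr.1, Nat.mod_eq_of_lt hr'.1] at h

/-- residues modulo a product of primes -/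
theorem card_crt (T : Finset ℕ) (hT : ∀ p ∈ T, p.Prime) (V : ℕ → Finset ℕ) (A : Finset ℕ)
    (hA : ∀ r ∈ A, r < ∏ p ∈ T, p) (hAV : ∀ r ∈ A, ∀ p ∈ T, r % p ∈ V p) :
    A.card ≤ ∏ p ∈ T, (V p).card := by
  classical
  rw [← card_pi]
  apply card_le_card_of_injOn (fun r => fun p _ => r % p)
  · intro r hr
    rw [mem_coe, mem_pi]
    exact hAV r hr
  · intro r hr r' hr' h
    have h1 : ∀ p ∈ T, (p : ℤ) ∣ (r : ℤ) - r' := by
      intro p hp
      have h2 : r % p = r' % p := congrFun (congrFun h p) hp
      exact (Nat.modEq_iff_dvd.mp (show r' % p = r % p from h2.symm))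
    have h3 : (∏ p ∈ T, (p : ℤ)) ∣ (r : ℤ) - r' := by
      apply Finset.prod_dvd_of_coprime _ h1
      intro p hp q hq hpq
      exact Nat.isCoprime_iff_coprime.mpr ((Nat.coprime_primes (hT p hp) (hT q hq)).mpr hpq)
    have h4 : r' ≡ r [MOD (∏ p ∈ T, p)] := by
      rw [Nat.modEq_iff_dvd]
      push_cast
      exact h3
    exact (Nat.ModEq.eq_of_lt_of_lt h4 (hA r' hr') (hA r hr)).symm

end Pool.Agent.J4H15.AP
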